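import Pool.Agent.H92.EX.Targets

/-!
# MP_34b97f_an, row XCHB: Chebyshev bounds for the primes
-/

open MeasureTheory ProbabilityTheory Filter Topology Finset
open scoped ENNReal

namespace Pool.Agent.H95.EX

open Pool.Agent.H92.EX

theorem primeCounting_nth (j : ℕ) : Nat.primeCounting (Nat.nth Nat.Prime j) = j + 1 := by
  have h1 : Nat.count Nat.Prime (Nat.nth Nat.Prime j) = j :=
    Nat.count_nth_of_infinite Nat.infinite_setOfPred_prime j
  have h2 : Nat.Prime (Nat.nth Nat.Prime j) := Nat.prime_nth_prime j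
  rw [Nat.primeCounting, Nat.primeCounting', Nat.count_succ, h1, if_pos h2]

theorem pf_XCHB : T_CHB := by
  refine ⟨⟨1 / (2 * Real.log 4 + 2), by
    have : 0 < Real.log 4 := Real.log_pos (by norm_num)
    positivity, fun j => ?_⟩, 10, by norm_num, fun j => ?_⟩
  · set p : ℕ := Nat.nth Nat.Prime j with hp
    have h2 : Nat.Prime p := Nat.prime_nth_prime j
    have hp2 : (2 : ℝ) ≤ p := by exact_mod_cast h2.two_le
    have hp0 : (0 : ℝ) < p := by linarith
    have h3 : j + 2 ≤ p := Nat.add_two_le_nth_prime j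
    have h3' : (j : ℝ) + 2 ≤ p := by exact_mod_cast h3
    have h4 := Chebyshev.pi_le_log4_mul_div (x := (p : ℝ)) (by linarith)
    rw [Nat.floor_natCast, hp, primeCounting_nth j, ← hp] at h4
    push_cast at h4
    have hs1 : 1 < √(p : ℝ) := by
      rw [Real.lt_sqrt (by norm_num)]
      linarith
    have hs0 : 0 < √(p : ℝ) := by linarith
    have hl0 : 0 < Real.log √(p : ℝ) := Real.log_pos hs1
    have hl : Real.log (p : ℝ) = 2 * Real.log √(p : ℝ) := by
      rw [Real.log_sqrt hp0.le]
      ring
    have hl2 : Real.log √(p : ℝ) ≤ √(p : ℝ) := (Real.log_le_sub_one_of_pos hs0).trans (by linarith)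
    have h5 : Real.log ((j : ℝ) + 2) ≤ Real.log p := Real.log_le_log (by positivity) h3'
    have h6 : ((j : ℝ) + 1) * Real.log ((j : ℝ) + 2) ≤ (2 * Real.log 4 + 2) * p := by
      calc ((j : ℝ) + 1) * Real.log ((j : ℝ) + 2) ≤ ((j : ℝ) + 1) * Real.log p := by gcongr
        _ ≤ (Real.log 4 * p / Real.log √(p : ℝ) + √(p : ℝ)) * Real.log p :=
            mul_le_mul_of_nonneg_right h4 (Real.log_nonneg (by linarith))
        _ = 2 * Real.log 4 * p + 2 * √(p : ℝ) * Real.log √(p : ℝ) := by
            rw [hl]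
            field_simp
        _ ≤ 2 * Real.log 4 * p + 2 * √(p : ℝ) * √(p : ℝ) := by gcongr
        _ = (2 * Real.log 4 + 2) * p := by
            rw [mul_assoc 2 (√(p : ℝ)) (√(p : ℝ)), Real.mul_self_sqrt hp0.le]
            ring
    have h7 : 0 < 2 * Real.log 4 + 2 := by
      have : 0 < Real.log 4 := Real.log_pos (by norm_num)
      positivity
    rw [mul_assoc, one_div, inv_mul_le_iff₀ h7]
    exact h6
  · set p : ℕ := Nat.nth Nat.Prime j with hp
    have h2 : Nat.Prime p := Nat.prime_nth_prime j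
    have hp2 : (2 : ℝ) ≤ p := by exact_mod_cast h2.two_le
    have hp0 : (0 : ℝ) < p := by linarith
    have h4 := Chebyshev.pi_ge p
    rw [hp, primeCounting_nth j, ← hp] at h4
    push_cast at h4
    have hlp : 0 < Real.log p := Real.log_pos (by linarith)
    set y : ℝ := (p : ℝ) ^ (1 / 4 : ℝ) with hy
    have hy0 : 0 < y := Real.rpow_pos_of_pos hp0 _
    have hy4 : y ^ 4 = p := by
      rw [hy, ← Real.rpow_natCast, ← Real.rpow_mul hp0.le]
      norm_num
    have hly : Real.log y = Real.log p / 4 := by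
      rw [hy, Real.log_rpow hp0]
      ring
    have hly2 : Real.log y ≤ y := (Real.log_le_sub_one_of_pos hy0).trans (by linarith)
    have hl2a := Real.log_two_gt_d9
    have hl2b := Real.log_two_lt_d9
    -- lower bound for the numerator
    have h5 : Real.log ((p : ℝ) + 1) ≤ Real.log 2 + 1 / 2 + ((p : ℝ) - 2) / 3 := by
      have e1 : ((p : ℝ) + 1) = 2 * (3 / 2) * (((p : ℝ) + 1) / 3) := by ring
      rw [e1, Real.log_mul (by norm_num) (by positivity), Real.log_mul (by norm_num) (by norm_num)]
      have e2 := Real.log_le_sub_one_of_pos (show (0 : ℝ) < 3 / 2 by norm_num)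
      have e3 := Real.log_le_sub_one_of_pos (show (0 : ℝ) < ((p : ℝ) + 1) / 3 by positivity)
      linarith
    have h6 : (p : ℝ) / 16 ≤ p * Real.log 2 - Real.log ((p : ℝ) + 1) := by
      have : (p : ℝ) * 0.6931471803 ≤ p * Real.log 2 := by gcongr
      linarith
    have h7 : y ^ 3 / 64 ≤ (j : ℝ) + 1 := by
      calc y ^ 3 / 64 = ((p : ℝ) / 16) / (4 * y) := by
            rw [← hy4]
            field_simp
            norm_num
        _ ≤ ((p : ℝ) / 16) / Real.log p := by
            have : Real.log p ≤ 4 * y := by linarith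
            gcongr
        _ ≤ (p * Real.log 2 - Real.log ((p : ℝ) + 1)) / Real.log p := by gcongr
        _ ≤ (j : ℝ) + 1 := h4
    have h8 : 3 * Real.log y ≤ 6 * Real.log 2 + Real.log ((j : ℝ) + 2) := by
      have e1 : Real.log (y ^ 3) ≤ Real.log (2 ^ 6 * ((j : ℝ) + 2)) :=
        Real.log_le_log (by positivity) (by linarith)
      rw [Real.log_mul (by norm_num) (by positivity), Real.log_pow, Real.log_pow] at e1
      push_cast at e1
      exact e1
    have h9 : Real.log 2 ≤ Real.log ((j : ℝ) + 2) :=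
      Real.log_le_log (by norm_num) (by have : (0 : ℝ) ≤ j := Nat.cast_nonneg j; linarith)
    linarith

end Pool.Agent.H95.EX
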