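import Pool.Agent.H92.EX.Targets

/-!
# MP_34b97f_an, row XDIM: the exceptional sets have dimension smaller than one
-/

open MeasureTheory ProbabilityTheory Filter Topology Finset
open scoped ENNReal

namespace Pool.Agent.H95.EX

open Pool.Agent.H92.EX
open Pool.Agent.H89.MT

theorem ext_apply_restrict {n : ℕ} (x : ℕ → Bool) (j : ℕ) (hj : j < n) :
    Pool.Agent.H92.EX.ext (fun k : Fin n => x k) j = x j := by
  simp [Pool.Agent.H92.EX.ext, hj]

/-- the bad set of blocks of marks -/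
noncomputable def Bad (H : Finset ℕ) (C θ : ℝ) (K i : ℕ) : Finset (Fin (2 ^ (i + 1)) → Bool) := by
  classical
  exact (Icc 3 (2 ^ (K * i))).biUnion fun N => Finset.univ.filter fun w : Fin (2 ^ (i + 1)) → Bool =>
    θ * (C / ((i : ℝ) + 1)) < |∑ j ∈ Ico (2 ^ i) (2 ^ (i + 1)), sg (ext w j) * Y N H j (ext w)|

theorem card_Bad (hA : T_AZU) (hD : T_DEP) (H : Finset ℕ) (C θ : ℝ) (hC : 0 < C) (hθ : 0 < θ)
    (hY : ∀ (i N j : ℕ) (x : ℕ → Bool), 3 ≤ N → j ∈ Ico (2 ^ i) (2 ^ (i + 1)) →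
      |Y N H j x| ≤ C / (2 ^ i * ((i : ℝ) + 1))) (K i : ℕ) :
    ((Bad H C θ K i).card : ℝ) ≤ (2 : ℝ) ^ (K * i) *
      (2 * 2 ^ (2 ^ (i + 1)) * Real.exp (-(θ ^ 2 * 2 ^ i / 2))) := by
  classical
  have hi : (0 : ℝ) < (i : ℝ) + 1 := by positivity
  have h2 : ∀ N ∈ Icc 3 (2 ^ (K * i)), (((Finset.univ.filter fun w : Fin (2 ^ (i + 1)) → Bool =>
      θ * (C / ((i : ℝ) + 1)) < |∑ j ∈ Ico (2 ^ i) (2 ^ (i + 1)), sg (ext w j) *
        Y N H j (ext w)|).card : ℕ) : ℝ) ≤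
      2 * 2 ^ (2 ^ (i + 1)) * Real.exp (-(θ ^ 2 * 2 ^ i / 2)) := by
    intro N hN
    have hN3 : 3 ≤ N := (Finset.mem_Icc.1 hN).1
    have h3 := hA (2 ^ (i + 1)) (fun j x => Y N H j x) (C / (2 ^ i * ((i : ℝ) + 1)))
      (θ * (C / ((i : ℝ) + 1))) (Ico (2 ^ i) (2 ^ (i + 1))) (fun j x y h => hD N H j x y h)
      (by positivity) (by positivity) (fun j hj => (Finset.mem_Ico.1 hj).2)
      (fun j hj x => hY i N j x hN3 hj) ⟨2 ^ i, Finset.mem_Ico.2 ⟨le_rfl, by
        rw [pow_succ]; have := Nat.two_pow_pos i; omega⟩⟩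
    rw [Fintype.card_subtype] at h3
    refine h3.trans (le_of_eq ?_)
    congr 2
    rw [Nat.card_Ico]
    have h4 : 2 ^ (i + 1) - 2 ^ i = 2 ^ i := by rw [pow_succ]; omega
    rw [h4]
    push_cast
    field_simp
    try ring
  unfold Bad
  calc ((Finset.card _ : ℕ) : ℝ) ≤ ((∑ N ∈ Icc 3 (2 ^ (K * i)), (Finset.univ.filter
        fun w : Fin (2 ^ (i + 1)) → Bool => θ * (C / ((i : ℝ) + 1)) <
        |∑ j ∈ Ico (2 ^ i) (2 ^ (i + 1)), sg (ext w j) * Y N H j (ext w)|).card : ℕ) : ℝ) := by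
        exact_mod_cast Finset.card_biUnion_le
    _ ≤ ∑ N ∈ Icc 3 (2 ^ (K * i)), (2 * 2 ^ (2 ^ (i + 1)) * Real.exp (-(θ ^ 2 * 2 ^ i / 2))) := by
        push_cast
        exact Finset.sum_le_sum h2
    _ ≤ (2 : ℝ) ^ (K * i) * (2 * 2 ^ (2 ^ (i + 1)) * Real.exp (-(θ ^ 2 * 2 ^ i / 2))) := by
        rw [Finset.sum_const, nsmul_eq_mul]
        refine mul_le_mul_of_nonneg_right ?_ (by positivity)
        rw [Nat.card_Icc]
        have : 2 ^ (K * i) + 1 - 3 ≤ 2 ^ (K * i) := by have := Nat.two_pow_pos (K * i); omega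
        exact_mod_cast this

theorem pf_XDIM (hB : T_BLK) (hA : T_AZU) (hF : T_HDF) (hD : T_DEP) : T_DIM := by
  intro H hH ε hε
  obtain ⟨C, θ, K, N₀, hC, hθ, hY, hN⟩ := hB H hH ε hε
  set s : NNReal := Real.toNNReal (1 - θ ^ 2 / 8) with hs
  have hs1 : (s : ℝ≥0∞) < 1 := by
    have : s < 1 := by
      rw [hs, Real.toNNReal_lt_one]
      have : 0 < θ ^ 2 := by positivity
      linarith
    exact_mod_cast this
  have hs2 : 1 - (s : ℝ) ≤ θ ^ 2 / 8 := by
    have : 1 - θ ^ 2 / 8 ≤ (s : ℝ) := by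
      rw [hs]
      exact Real.le_coe_toNNReal _
    linarith
  refine lt_of_le_of_lt (hF (Exc H ε) s (fun i => 2 ^ (i + 1)) (fun i => ↑(Bad H C θ K i)) ?_ ?_ ?_)
    hs1
  · intro x hx
    rw [frequently_atTop]
    intro a
    obtain ⟨N, hN1, hN2⟩ := (frequently_atTop.1 hx) (max N₀ (max 3 (2 ^ (K * a) + 1)))
    obtain ⟨i, hi1, hi2⟩ := hN N (le_trans (le_max_left _ _) hN1) x hN2
    have h3 : 3 ≤ N := le_trans (le_trans (le_max_left _ _) (le_max_right _ _)) hN1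
    have h4 : 2 ^ (K * a) + 1 ≤ N := le_trans (le_trans (le_max_right _ _) (le_max_right _ _)) hN1
    refine ⟨i, ?_, ?_⟩
    · by_contra hia
      have : 2 ^ (K * i) ≤ 2 ^ (K * a) :=
        Nat.pow_le_pow_right (by norm_num) (Nat.mul_le_mul_left _ (by omega))
      omega
    · rw [Finset.mem_coe]
      unfold Bad
      rw [Finset.mem_biUnion]
      refine ⟨N, Finset.mem_Icc.2 ⟨h3, hi1⟩, Finset.mem_filter.2 ⟨Finset.mem_univ _, ?_⟩⟩
      refine lt_of_lt_of_le hi2 (le_of_eq ?_)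
      congr 1
      refine Finset.sum_congr rfl fun j hj => ?_
      have hj2 : j < 2 ^ (i + 1) := (Finset.mem_Ico.1 hj).2
      rw [ext_apply_restrict x j hj2]
      congr 1
      exact hD N H j _ _ fun k hk => (ext_apply_restrict x k (hk.trans hj2)).symm
  · have h1 : Tendsto (fun i : ℕ => 2 ^ i) atTop (atTop : Filter ℕ) :=
      tendsto_pow_atTop_atTop_of_one_lt (by norm_num)
    exact h1.comp (tendsto_add_atTop_nat 1)
  · have h0 : Summable fun m : ℕ => (m : ℝ) ^ K * Real.exp (-(θ ^ 2 / 4) * m) :=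
      Real.summable_pow_mul_exp_neg_nat_mul K (by positivity)
    have h1 : Summable fun i : ℕ => 2 * (((2 ^ i : ℕ) : ℝ) ^ K *
        Real.exp (-(θ ^ 2 / 4) * ((2 ^ i : ℕ) : ℝ))) :=
      (h0.comp_injective (Nat.pow_right_injective (le_refl 2))).mul_left 2
    refine Summable.of_nonneg_of_le (fun i => by positivity) (fun i => ?_) h1
    have h2 := card_Bad hA hD H C θ hC hθ hY K i
    have h3 : (Nat.card (↑(↑(Bad H C θ K i) : Set (Fin (2 ^ (i + 1)) → Bool)) : Type) : ℝ) =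
        ((Bad H C θ K i).card : ℝ) := by
      simp
    rw [h3]
    calc ((Bad H C θ K i).card : ℝ) * (1 / 2 : ℝ) ^ ((s : ℝ) * ((2 ^ (i + 1) : ℕ) : ℝ))
        ≤ ((2 : ℝ) ^ (K * i) * (2 * 2 ^ (2 ^ (i + 1)) * Real.exp (-(θ ^ 2 * 2 ^ i / 2)))) *
          (1 / 2 : ℝ) ^ ((s : ℝ) * ((2 ^ (i + 1) : ℕ) : ℝ)) :=
          mul_le_mul_of_nonneg_right h2 (by positivity)
      _ = (2 : ℝ) ^ (K * i) * (2 * Real.exp (Real.log 2 * 2 ^ (i + 1) * (1 - s) -
          θ ^ 2 * 2 ^ i / 2)) := by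
          have e1 : (2 : ℝ) ^ (2 ^ (i + 1)) = Real.exp (Real.log 2 * 2 ^ (i + 1)) := by
            rw [← Real.rpow_natCast, Real.rpow_def_of_pos (by norm_num)]
            push_cast
            rfl
          have e2 : (1 / 2 : ℝ) ^ ((s : ℝ) * ((2 ^ (i + 1) : ℕ) : ℝ)) =
              Real.exp (-(Real.log 2 * 2 ^ (i + 1) * s)) := by
            rw [Real.rpow_def_of_pos (by norm_num), Real.log_div (by norm_num) (by norm_num),
              Real.log_one]
            congr 1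
            push_cast
            ring
          rw [e1, e2]
          have e3 : Real.log 2 * 2 ^ (i + 1) * (1 - s) - θ ^ 2 * 2 ^ i / 2 =
              Real.log 2 * 2 ^ (i + 1) + -(θ ^ 2 * 2 ^ i / 2) + -(Real.log 2 * 2 ^ (i + 1) * s) := by
            ring
          rw [e3, Real.exp_add, Real.exp_add]
          ring
      _ ≤ 2 * (((2 ^ i : ℕ) : ℝ) ^ K * Real.exp (-(θ ^ 2 / 4) * ((2 ^ i : ℕ) : ℝ))) := by
          have e4 : (2 : ℝ) ^ (K * i) = ((2 ^ i : ℕ) : ℝ) ^ K := by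
            push_cast
            rw [← pow_mul, mul_comm]
          have e5 : Real.exp (Real.log 2 * 2 ^ (i + 1) * (1 - s) - θ ^ 2 * 2 ^ i / 2) ≤
              Real.exp (-(θ ^ 2 / 4) * ((2 ^ i : ℕ) : ℝ)) := by
            apply Real.exp_le_exp.2
            have l2 : Real.log 2 ≤ 1 := by
              have := Real.log_two_lt_d9
              linarith
            have l0 : 0 ≤ Real.log 2 := Real.log_nonneg (by norm_num)
            have p2 : (0 : ℝ) < 2 ^ i := by positivity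
            have t1 : Real.log 2 * (1 - s) ≤ θ ^ 2 / 8 := by
              calc Real.log 2 * (1 - s) ≤ Real.log 2 * (θ ^ 2 / 8) :=
                    mul_le_mul_of_nonneg_left hs2 l0
                _ ≤ 1 * (θ ^ 2 / 8) := mul_le_mul_of_nonneg_right l2 (by positivity)
                _ = θ ^ 2 / 8 := one_mul _
            have t2 : Real.log 2 * (1 - s) * (2 * 2 ^ i) ≤ θ ^ 2 / 8 * (2 * 2 ^ i) :=
              mul_le_mul_of_nonneg_right t1 (by positivity)
            push_cast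
            rw [pow_succ]
            nlinarith [t2]
          rw [e4]
          have p3 : (0 : ℝ) ≤ ((2 ^ i : ℕ) : ℝ) ^ K := by positivity
          calc ((2 ^ i : ℕ) : ℝ) ^ K * (2 * Real.exp (Real.log 2 * 2 ^ (i + 1) * (1 - s) -
                θ ^ 2 * 2 ^ i / 2)) ≤ ((2 ^ i : ℕ) : ℝ) ^ K * (2 * Real.exp (-(θ ^ 2 / 4) *
                ((2 ^ i : ℕ) : ℝ))) := by gcongr
            _ = 2 * (((2 ^ i : ℕ) : ℝ) ^ K * Real.exp (-(θ ^ 2 / 4) * ((2 ^ i : ℕ) : ℝ))) := by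
                ring

end Pool.Agent.H95.EX
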