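import Pool.Agent.H92.EX.Targets

/-!
# MP_34b97f_an, row XHDF: upper bound for the Hausdorff dimension of a limit superior
-/

open MeasureTheory ProbabilityTheory Filter Topology Finset
open scoped ENNReal

namespace Pool.Agent.H95.EX

open Pool.Agent.H92.EX

/-- upper bound for the dimension of a limit superior, general metric spaces -/
theorem dimH_limsup_le {X : Type*} [MetricSpace X] (E : Set X) (s : NNReal)
    (ι : ℕ → Type) [∀ i, Fintype (ι i)] (t : ∀ i, ι i → Set X) (r : ℕ → ℝ≥0∞)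
    (hr : Tendsto r atTop (𝓝 0)) (ht : ∀ i a, Metric.ediam (t i a) ≤ r i)
    (hE : ∀ x ∈ E, ∃ᶠ i in atTop, ∃ a, x ∈ t i a)
    (hs : ∑' i, (Fintype.card (ι i) : ℝ≥0∞) * r i ^ (s : ℝ) ≠ ∞) : dimH E ≤ s := by
  borelize X
  apply dimH_le_of_hausdorffMeasure_ne_top
  have hR : Tendsto (fun m => ⨆ i, r (i + m)) atTop (𝓝 0) := by
    rw [ENNReal.tendsto_atTop_zero]
    intro ε hε
    obtain ⟨N, hN⟩ := (ENNReal.tendsto_atTop_zero.1 hr) ε hε
    exact ⟨N, fun n hn => iSup_le fun i => hN _ (by omega)⟩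
  have h1 := Measure.hausdorffMeasure_le_liminf_tsum (ι := fun m : ℕ => Σ i : ℕ, ι (i + m))
    (s : ℝ) E (l := atTop) (fun m => ⨆ i, r (i + m)) hR (fun m a => t (a.1 + m) a.2)
    (Eventually.of_forall fun m a => (ht _ _).trans (le_iSup (fun i => r (i + m)) a.1))
    (Eventually.of_forall fun m x hx => by
      obtain ⟨i, hi, a, ha⟩ := (frequently_atTop.1 (hE x hx)) m
      obtain ⟨k, rfl⟩ := Nat.exists_eq_add_of_le' hi
      exact Set.mem_iUnion.2 ⟨⟨k, a⟩, ha⟩)
  refine ne_top_of_le_ne_top ENNReal.zero_ne_top (h1.trans ?_)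
  have h2 : Tendsto (fun m => ∑' i, (Fintype.card (ι (i + m)) : ℝ≥0∞) * r (i + m) ^ (s : ℝ))
      atTop (𝓝 0) := ENNReal.tendsto_sum_nat_add (fun i => (Fintype.card (ι i) : ℝ≥0∞) *
        r i ^ (s : ℝ)) hs
  rw [← h2.liminf_eq]
  refine liminf_le_liminf (Eventually.of_forall fun m => ?_)
  rw [ENNReal.tsum_sigma']
  refine ENNReal.tsum_le_tsum fun i => ?_
  rw [tsum_fintype]
  calc ∑ b : ι (i + m), Metric.ediam (t (i + m) b) ^ (s : ℝ)
      ≤ ∑ _b : ι (i + m), r (i + m) ^ (s : ℝ) :=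
        Finset.sum_le_sum fun b _ => ENNReal.rpow_le_rpow (ht _ _) s.2
    _ = (Fintype.card (ι (i + m)) : ℝ≥0∞) * r (i + m) ^ (s : ℝ) := by
        rw [Finset.sum_const, Finset.card_univ, nsmul_eq_mul]

theorem pf_XHDF : T_HDF := by
  intro E s n B hE hn hs
  classical
  let _ : MetricSpace (ℕ → Bool) := PiNat.metricSpace
  have hfin : ∀ i, Fintype (B i) := fun i => Fintype.ofFinite _
  show dimH E ≤ s
  refine dimH_limsup_le E s (fun i => (B i : Type)) (fun i b => {x | (fun k : Fin (n i) => x k) =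
    b.1}) (fun i => ENNReal.ofReal ((1 / 2 : ℝ) ^ (n i))) ?_ ?_ ?_ ?_
  · have h1 : Tendsto (fun i => (1 / 2 : ℝ) ^ (n i)) atTop (𝓝 0) :=
      (tendsto_pow_atTop_nhds_zero_of_lt_one (by norm_num) (by norm_num)).comp hn
    simpa using ENNReal.tendsto_ofReal h1
  · intro i a
    refine Metric.ediam_le fun x hx y hy => ?_
    rw [edist_dist]
    refine ENNReal.ofReal_le_ofReal ?_
    have h1 : x ∈ PiNat.cylinder y (n i) := by
      intro k hk
      have := congrFun (hx.trans hy.symm) ⟨k, hk⟩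
      simpa using this
    exact PiNat.mem_cylinder_iff_dist_le.1 h1
  · intro x hx
    exact (hE x hx).mono fun i hi => ⟨⟨_, hi⟩, rfl⟩
  · have h1 : (fun i => (Fintype.card (B i) : ℝ≥0∞) *
        ENNReal.ofReal ((1 / 2 : ℝ) ^ (n i)) ^ (s : ℝ)) = fun i =>
        ENNReal.ofReal ((Nat.card (B i) : ℝ) * (1 / 2 : ℝ) ^ ((s : ℝ) * n i)) := by
      funext i
      rw [ENNReal.ofReal_mul (by positivity), ENNReal.ofReal_natCast, Nat.card_eq_fintype_card,
        ENNReal.ofReal_rpow_of_pos (by positivity), mul_comm (s : ℝ), Real.rpow_mul (by norm_num),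
        Real.rpow_natCast]
    rw [h1]
    exact hs.tsum_ofReal_ne_top

end Pool.Agent.H95.EX
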