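import Pool.Agent.H92.EX.Targets

/-!
# MP_34b97f_an, row XMSQ: second moment of sums of predictable multiples of centred signs
-/

open MeasureTheory ProbabilityTheory Filter Topology Finset
open scoped ENNReal

universe u

namespace Pool.Agent.H95.EX

open Pool.Agent.H92.EX

section

variable {Ω : Type u} {m0 : MeasurableSpace Ω} {P : Measure Ω} [IsProbabilityMeasure P]
  {ξ : Ω → ℕ → Bool}

theorem fil_le (hξ : ∀ j, Measurable fun ω => ξ ω j) (j : ℕ) : fil ξ j ≤ m0 :=
  iSup₂_le fun i _ => measurable_iff_comap_le.1 (hξ i)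

theorem fil_mono {i j : ℕ} (h : i ≤ j) : fil ξ i ≤ fil ξ j :=
  biSup_mono fun k hk => Finset.mem_range.2 (lt_of_lt_of_le (Finset.mem_range.1 hk) h)

theorem meas_fil {i j : ℕ} (h : i < j) : Measurable[fil ξ j] fun ω => ξ ω i :=
  measurable_iff_comap_le.2 (le_iSup₂ (f := fun i (_ : i ∈ Finset.range j) =>
    MeasurableSpace.comap (fun ω => ξ ω i) ⊤) i (Finset.mem_range.2 h))

theorem meas_sg_fil {i j : ℕ} (h : i < j) : Measurable[fil ξ j] fun ω => sg (ξ ω i) :=
  (measurable_of_finite sg).comp (meas_fil h)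

theorem meas_Z (Z : ℕ → (ℕ → Bool) → ℝ)
    (hZ : ∀ j x y, (∀ i < j, x i = y i) → Z j x = Z j y) (j : ℕ) :
    Measurable[fil ξ j] fun ω => Z j (ξ ω) := by
  have h1 : (fun ω => Z j (ξ ω)) = (fun w : Fin j → Bool => Z j (Pool.Agent.H92.EX.ext w)) ∘
      fun ω => (fun i : Fin j => ξ ω i) := by
    funext ω
    refine hZ j _ _ fun i hi => ?_
    simp [Pool.Agent.H92.EX.ext, hi]
  rw [h1]
  refine (measurable_of_finite _).comp ?_
  exact @measurable_pi_lambda _ _ _ (fil ξ j) _ _ fun i => meas_fil i.2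

theorem abs_sg_le (b : Bool) : |sg b| ≤ 1 := by
  cases b <;> simp [sg]

end

theorem pf_XMSQ : T_MSQ.{u} := by
  intro Ω _ P _ ξ hξ Z c B hZ hc
  have hle := fil_le hξ
  have hZm : ∀ j, Measurable fun ω => Z j (ξ ω) := fun j => (meas_Z Z hZ j).mono (hle j) le_rfl
  refine ⟨hZm, ?_⟩
  set μ : ℕ → Ω → ℝ := fun j => P[fun ω' => sg (ξ ω' j) | fil ξ j] with hμ
  have hsgm : ∀ j, Measurable fun ω => sg (ξ ω j) := fun j => (measurable_of_finite sg).comp (hξ j)
  have hsgi : ∀ j, Integrable (fun ω => sg (ξ ω j)) P := fun j =>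
    Integrable.of_bound (hsgm j).aestronglyMeasurable 1
      (Eventually.of_forall fun ω => by rw [Real.norm_eq_abs]; exact abs_sg_le _)
  have hμm : ∀ j, StronglyMeasurable[fil ξ j] (μ j) := fun j => stronglyMeasurable_condExp
  have hμb : ∀ j, ∀ᵐ ω ∂P, |μ j ω| ≤ 1 := fun j => by
    have := ae_bdd_condExp_of_ae_bdd (m := fil ξ j) (μ := P) (R := 1)
      (f := fun ω => sg (ξ ω j)) (Eventually.of_forall fun ω => by
        simpa using abs_sg_le (ξ ω j))
    simpa using this
  set D : ℕ → Ω → ℝ := fun j ω => sg (ξ ω j) - μ j ω with hD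
  set M : ℕ → Ω → ℝ := fun j ω => D j ω * Z j (ξ ω) with hM
  have hDi : ∀ j, Integrable (D j) P := fun j => (hsgi j).sub integrable_condExp
  have hD0 : ∀ j, P[D j | fil ξ j] =ᵐ[P] 0 := by
    intro j
    have h1 : P[D j | fil ξ j] =ᵐ[P] P[fun ω => sg (ξ ω j) | fil ξ j] - P[μ j | fil ξ j] :=
      condExp_sub (hsgi j) integrable_condExp (fil ξ j)
    have h2 : P[μ j | fil ξ j] = μ j :=
      condExp_of_stronglyMeasurable (hle j) (hμm j) integrable_condExp
    rw [h2] at h1
    refine h1.trans (Eventually.of_forall fun ω => ?_)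
    simp [hμ]
  have hDm : ∀ j, Measurable (D j) := fun j =>
    (hsgm j).sub ((hμm j).mono (hle j)).measurable
  have hDm' : ∀ i j, i < j → Measurable[fil ξ j] (D i) := fun i j hij =>
    (meas_sg_fil hij).sub ((hμm i).mono (fil_mono hij.le)).measurable
  have hMm : ∀ j, Measurable (M j) := fun j => (hDm j).mul (hZm j)
  have hMb : ∀ j, ∀ᵐ ω ∂P, |M j ω| ≤ 2 * c j := by
    intro j
    filter_upwards [hμb j] with ω hω
    have h1 : |D j ω| ≤ 2 := by
      have := abs_sub (sg (ξ ω j)) (μ j ω)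
      have h2 := abs_sg_le (ξ ω j)
      calc |D j ω| ≤ |sg (ξ ω j)| + |μ j ω| := this
        _ ≤ 2 := by linarith
    calc |M j ω| = |D j ω| * |Z j (ξ ω)| := abs_mul _ _
      _ ≤ 2 * c j := mul_le_mul h1 (hc j _) (abs_nonneg _) (by norm_num)
  have hMMi : ∀ i j, Integrable (fun ω => M i ω * M j ω) P := by
    intro i j
    refine Integrable.of_bound ((hMm i).mul (hMm j)).aestronglyMeasurable ((2 * c i) * (2 * c j)) ?_
    filter_upwards [hMb i, hMb j] with ω h1 h2
    rw [Real.norm_eq_abs, abs_mul]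
    exact mul_le_mul h1 h2 (abs_nonneg _) ((abs_nonneg _).trans h1)
  -- orthogonality
  have horth : ∀ i j, i < j → ∫ ω, M i ω * M j ω ∂P = 0 := by
    intro i j hij
    have h1 : StronglyMeasurable[fil ξ j] (fun ω => M i ω * Z j (ξ ω)) := by
      have a1 : Measurable[fil ξ j] (fun ω => Z i (ξ ω)) :=
        (meas_Z Z hZ i).mono (fil_mono hij.le) le_rfl
      exact (((hDm' i j hij).mul a1).mul (meas_Z Z hZ j)).stronglyMeasurable
    have h2 : (fun ω => M i ω * M j ω) = (fun ω => M i ω * Z j (ξ ω)) * D j := by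
      funext ω
      simp only [hM, Pi.mul_apply]
      ring
    have h3 : P[(fun ω => M i ω * Z j (ξ ω)) * D j | fil ξ j] =ᵐ[P]
        (fun ω => M i ω * Z j (ξ ω)) * P[D j | fil ξ j] := by
      refine condExp_mul_of_stronglyMeasurable_left h1 ?_ (hDi j)
      rw [← h2]
      exact hMMi i j
    rw [h2, ← integral_condExp (hle j), integral_congr_ae h3]
    have h4 : (fun ω => M i ω * Z j (ξ ω)) * P[D j | fil ξ j] =ᵐ[P] fun _ => (0 : ℝ) := by
      filter_upwards [hD0 j] with ω hω
      simp [hω]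
    rw [integral_congr_ae h4, integral_zero]
  have hsum : (fun ω => (∑ j ∈ B, (sg (ξ ω j) - (P[fun ω' => sg (ξ ω' j) | fil ξ j]) ω) *
      Z j (ξ ω)) ^ 2) = fun ω => ∑ i ∈ B, ∑ j ∈ B, M i ω * M j ω := by
    funext ω
    rw [sq, Finset.sum_mul_sum]
  rw [hsum, integral_finset_sum _ fun i _ => integrable_finset_sum _ fun j _ => hMMi i j]
  rw [Finset.mul_sum]
  refine Finset.sum_le_sum fun i hi => ?_
  rw [integral_finset_sum _ fun j _ => hMMi i j, Finset.sum_eq_single_of_mem i hi]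
  · calc ∫ ω, M i ω * M i ω ∂P ≤ ∫ _ω, 4 * c i ^ 2 ∂P := by
          refine integral_mono_ae (hMMi i i) (integrable_const _) ?_
          filter_upwards [hMb i] with ω h1
          have h2 := mul_le_mul h1 h1 (abs_nonneg _) ((abs_nonneg _).trans h1)
          rw [abs_mul_abs_self] at h2
          calc M i ω * M i ω ≤ 2 * c i * (2 * c i) := h2
            _ = 4 * c i ^ 2 := by ring
      _ = 4 * c i ^ 2 := by simp
  · intro j _ hji
    rcases lt_or_gt_of_ne hji with h | h
    · have := horth j i h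
      rw [← this]
      exact integral_congr_ae (Eventually.of_forall fun ω => mul_comm _ _)
    · exact horth i j h

end Pool.Agent.H95.EX
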