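import Pool.Agent.H92.EX.Targets

/-!
# MP_34b97f_an, row XGAU: gauge functions
-/

open MeasureTheory ProbabilityTheory Filter Topology Finset
open scoped ENNReal

namespace Pool.Agent.H95.EX

open Pool.Agent.H92.EX

/-- sets of dimension smaller than one are null for gauge functions of order `t ^ (1 - o(1))` -/
theorem mkMetric_eq_zero {X : Type*} [MetricSpace X] (E : Set X) (h : dimH E < 1)
    (g : ℝ≥0∞ → ℝ≥0∞) (hg : ∀ s : ℝ, 0 < s → s < 1 → ∀ᶠ t in 𝓝 0, g t ≤ t ^ s) :
    OuterMeasure.mkMetric g E = 0 := by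
  borelize X
  obtain ⟨s, h1, h2⟩ := ENNReal.lt_iff_exists_nnreal_btwn.1 h
  have h3 : 0 < (s : ℝ) := by
    have : (0 : ℝ≥0∞) < s := lt_of_le_of_lt zero_le h1
    exact_mod_cast this
  have h4 : (s : ℝ) < 1 := by
    exact_mod_cast h2
  have h5 := hausdorffMeasure_of_dimH_lt h1
  have h6 : OuterMeasure.mkMetric g E ≤ OuterMeasure.mkMetric (fun t => t ^ (s : ℝ)) E :=
    OuterMeasure.mkMetric_mono (hg s h3 h4) E
  rw [OuterMeasure.coe_mkMetric (fun t => t ^ (s : ℝ))] at h6
  exact le_antisymm (h6.trans h5.le) zero_le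

theorem pf_XGAU : T_GAU := by
  intro E hE g hg
  let _ : MetricSpace (ℕ → Bool) := PiNat.metricSpace
  exact measure_iUnion_null fun m => mkMetric_eq_zero (E m) (hE m) g hg

end Pool.Agent.H95.EX
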